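import Pool.Agent.Lib.TGJ.Iface
import Pool.Agent.Lib.TGJ_h11.Curve2

/-!
# TANK G, block C: basic facts on the points `NPt`

The ring `S` is a normal noetherian domain with field of fractions `K`, the maximal ideal is the
kernel of `res`; the primes of height one give prime divisors; a dual system of derivations gives a
`p`-basis.
-/

set_option autoImplicit false

namespace Pool.Agent.TGJ.P78

open Pool.Agent.TG51 (InLoc locP valP)
open Pool.Agent.TGh4 (Disc ordV)
open Pool.Agent.TGh43 (PD)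

universe u

variable {k K : Type u} [Field k] [Field K] [Algebra k K] {S : Subalgebra k K} {res : S →ₐ[k] k}

theorem res_ne_zero {s : S} (h : res s ≠ 0) : (s : K) ≠ 0 := by
  intro h0
  apply h
  have : s = 0 := Subtype.ext h0
  rw [this, map_zero]

theorem isUnit_of_res (h : NPt S res) {s : S} (hs : res s ≠ 0) : IsUnit s :=
  IsUnit.of_mul_eq_one ⟨(s : K)⁻¹, h.inv s hs⟩
    (Subtype.ext (mul_inv_cancel₀ (res_ne_zero hs)))

theorem isFractionRing (h : NPt S res) : IsFractionRing S K := by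
  refine IsFractionRing.of_field S K fun z => ?_
  obtain ⟨a, b, hb, e⟩ := h.frac z
  exact ⟨a, b, by rw [eq_div_iff (show algebraMap S K b ≠ 0 from hb)]; exact e⟩

theorem isIntegrallyClosed (h : NPt S res) : IsIntegrallyClosed S := by
  have := isFractionRing h
  rw [isIntegrallyClosed_iff K]
  intro x hx
  exact ⟨⟨x, h.ic x hx⟩, rfl⟩

theorem isNoetherianRing (h : NPt S res) : IsNoetherianRing S := by
  obtain ⟨A, hfg, hA, hloc⟩ := h.fg
  have h1 : Algebra.FiniteType k A := A.fg_iff_finiteType.1 hfg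
  have h2 : IsNoetherianRing A := Algebra.FiniteType.isNoetherianRing k A
  rw [isNoetherianRing_iff_ideal_fg]
  intro I
  have h3 : (I.comap (Subalgebra.inclusion hA : A →+* S)).map (Subalgebra.inclusion hA : A →+* S) =
      I := by
    refine le_antisymm Ideal.map_comap_le fun s hs => ?_
    obtain ⟨a, b, hb, e⟩ := hloc s
    have h4 : s * Subalgebra.inclusion hA b = Subalgebra.inclusion hA a := Subtype.ext e
    have hu : IsUnit (Subalgebra.inclusion hA b) := isUnit_of_res h (by rw [hb]; exact one_ne_zero)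
    obtain ⟨u, hu⟩ := hu
    have h5 : Subalgebra.inclusion hA a ∈ I := by
      rw [← h4]
      exact I.mul_mem_right _ hs
    have h6 : s = Subalgebra.inclusion hA a * ((u⁻¹ : Sˣ) : S) := by
      rw [← h4, ← hu, mul_assoc, Units.mul_inv, mul_one]
    rw [h6]
    exact Ideal.mul_mem_right _ _ (Ideal.mem_map_of_mem _ (Ideal.mem_comap.2 h5))
  rw [← h3]
  exact Ideal.FG.map ((isNoetherianRing_iff_ideal_fg _).1 h2 _) _

theorem isLocalRing (h : NPt S res) : IsLocalRing S := by
  refine IsLocalRing.of_unique_max_ideal ⟨RingHom.ker res, ?_, fun J hJ => ?_⟩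
  · exact RingHom.ker_isMaximal_of_surjective _ fun c => ⟨algebraMap k S c, by
      rw [AlgHom.commutes]; rfl⟩
  · have hm : (RingHom.ker res).IsMaximal :=
      RingHom.ker_isMaximal_of_surjective _ fun c => ⟨algebraMap k S c, by
        rw [AlgHom.commutes]; rfl⟩
    refine hJ.eq_of_le hm.ne_top fun s hs => ?_
    by_contra hs'
    exact hJ.ne_top (Ideal.eq_top_of_isUnit_mem J hs (isUnit_of_res h hs'))

theorem locFG (h : NPt S res) : LocFG k (imS S K) := by
  obtain ⟨A, hfg, hA, hloc⟩ := h.fg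
  obtain ⟨T, hT⟩ := hfg
  refine ⟨T, fun a ha => ?_, ?_⟩
  · rw [hT] at ha
    exact ⟨⟨a, hA ha⟩, rfl⟩
  · rintro _ ⟨s, rfl⟩
    obtain ⟨a, b, hb, e⟩ := hloc s
    have hb' : res (Subalgebra.inclusion hA b) ≠ 0 := by rw [hb]; exact one_ne_zero
    have hb0 : (b : K) ≠ 0 := res_ne_zero (res := res) hb'
    rw [hT]
    refine ⟨a, a.2, b, b.2, hb0, ⟨⟨(b : K)⁻¹, h.inv _ hb'⟩, rfl⟩, ?_⟩
    rw [eq_div_iff hb0]
    exact e

theorem essFiniteType (h : NPt S res) : Algebra.EssFiniteType k K := by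
  obtain ⟨A, hfg, hA, hloc⟩ := h.fg
  obtain ⟨T, hT⟩ := hfg
  rw [Algebra.essFiniteType_iff]
  refine ⟨T, fun z => ?_⟩
  rw [hT]
  obtain ⟨a, b, hb, e⟩ := h.frac z
  obtain ⟨a₁, a₂, ha₂, e₁⟩ := hloc a
  obtain ⟨b₁, b₂, hb₂, e₂⟩ := hloc b
  have ha0 : (a₂ : K) ≠ 0 := res_ne_zero (res := res) (s := Subalgebra.inclusion hA a₂)
    (by rw [ha₂]; exact one_ne_zero)
  have hb0 : (b₂ : K) ≠ 0 := res_ne_zero (res := res) (s := Subalgebra.inclusion hA b₂)
    (by rw [hb₂]; exact one_ne_zero)
  have hb1 : (b₁ : K) ≠ 0 := by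
    rw [← e₂]
    exact mul_ne_zero hb hb0
  refine ⟨b₁ * a₂, A.mul_mem b₁.2 a₂.2, (mul_ne_zero hb1 ha0).isUnit, ?_⟩
  have e3 : z * ((b₁ : K) * a₂) = a₁ * b₂ := by
    rw [← e₂, ← e₁, ← e]
    ring
  rw [e3]
  exact A.mul_mem a₁.2 b₂.2

/-! ### Prime divisors from primes of height one -/

section Div

variable [IsFractionRing S K] [IsNoetherianRing S] [IsIntegrallyClosed S]

theorem isDiv_valP {P : Ideal S} [P.IsPrime] (hP : P.height = 1) : IsDiv S (valP K P hP) := by
  refine ⟨fun a ha => TG51.algebraMap_mem_valP hP (⟨a, ha⟩ : S), ?_, TG51.disc_valP hP⟩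
  rintro x ⟨a, s, hs, e⟩
  refine ⟨a, a.2, s, s.2, ?_, e⟩
  refine le_antisymm ((ValuationSubring.valuation_le_one_iff _ _).2
    (TG51.algebraMap_mem_valP hP s)) (not_lt.1 fun h => hs ?_)
  exact (TG51.valuation_lt_one_iff hP s).1 h

theorem cen_valP {P : Ideal S} [P.IsPrime] (hP : P.height = 1) : cen S (valP K P hP) = P := by
  ext a
  rw [mem_cen (isDiv_valP hP).le]
  exact TG51.valuation_lt_one_iff hP a

theorem ramV_valP {n : ℕ} (f : Fin n → S) {P : Ideal S} [hPp : P.IsPrime] (hP : P.height = 1) :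
    ramV (valP K P hP) f = ramP k K f P := by
  rw [ramP_eq f P hP]
  rfl

end Div

/-! ### The `p`-basis -/

/-- A dual system: `K / k(f)` is separable. -/
theorem isSeparable_of_dual [Algebra.EssFiniteType k K] {n : ℕ} {f : Fin n → K}
    {D : Fin n → Derivation k K K} (hD : Dual f D) :
    Algebra.IsSeparable (IntermediateField.adjoin k (Set.range f)) K := by
  set F := IntermediateField.adjoin k (Set.range f) with hF
  have h0 : ∀ d : Derivation F K K, d = 0 := by
    intro d
    ext z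
    have h1 := hD.span (d.restrictScalars k) z
    rw [Derivation.coe_restrictScalars] at h1
    rw [h1]
    refine Finset.sum_eq_zero fun j _ => ?_
    have h2 : d (f j) = 0 :=
      Derivation.map_algebraMap d (⟨f j, IntermediateField.subset_adjoin k _ ⟨j, rfl⟩⟩ : F)
    rw [h2, zero_mul]
  have h2 : ∀ x : K, KaehlerDifferential.D F K x = 0 := by
    intro x
    rw [← Module.forall_dual_apply_eq_zero_iff K]
    intro g
    have h3 := h0 (g.compDer (KaehlerDifferential.D F K))
    exact congrArg (fun d : Derivation F K K => d x) h3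
  have h1 : Subsingleton (Ω[K⁄F]) := by
    rw [← Submodule.subsingleton_iff K, ← subsingleton_iff_bot_eq_top,
      ← KaehlerDifferential.span_range_derivation F K, eq_comm, Submodule.span_eq_bot]
    rintro _ ⟨x, rfl⟩
    exact h2 x
  have h4 : Algebra.FormallyUnramified F K := ⟨h1⟩
  have h3 : Algebra.EssFiniteType F K := Algebra.EssFiniteType.of_comp k F K
  exact Algebra.FormallyUnramified.isSeparable F K

theorem pd_of_dual [PerfectField k] [Algebra.EssFiniteType k K] {p : ℕ} [Fact p.Prime] [CharP K p]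
    {n : ℕ} {f : Fin n → K} {D : Fin n → Derivation k K K} (hD : Dual f D) : PD p f D :=
  hD.pd (isSeparable_of_dual hD)

end Pool.Agent.TGJ.P78
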