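import Pool.Agent.Lib.TGJ_h78.NPtB

/-!
# TANK G, block C, row R8: denominators on a curve
-/

set_option autoImplicit false

namespace Pool.Agent.TGJ.P78

open Pool.Agent.TG51 (InLoc locP valP)
open Pool.Agent.TGh4 (Disc ordV)
open Pool.Agent.TGh43 (PD)
open scoped WithZero

universe u

variable {k K : Type u} [Field k] [Field K] [Algebra k K] {S : Subalgebra k K} {res : S →ₐ[k] k}

theorem ker_toRes (V : ValuationSubring K) : RingHom.ker (toRes S V) = cen S V := by
  ext a
  rw [RingHom.mem_ker]
  change algebraMap S (cen S V).ResidueField a = 0 ↔ a ∈ cen S V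
  exact Ideal.algebraMap_residueField_eq_zero

/-- The support of a place of a curve is not the maximal ideal. -/
theorem supp_ne {v : Valuation S ℤᵐ⁰} (hv : IsCv res v) : v.supp ≠ RingHom.ker res := by
  intro h
  obtain ⟨a, ha, ha'⟩ := hv.ne
  apply ha'
  have : a ∈ v.supp := by rw [h]; exact ha
  exact this

/-- A curve `w = 0` on which `R_f` is proper is not contained in `R_f`. -/
theorem ramP_eq_zero [IsFractionRing S K] [IsNoetherianRing S] [IsIntegrallyClosed S]
    {m n : ℕ} {w : Fin m → S} {f : Fin n → S} (hw : ProperR S res w f) {v : Valuation S ℤᵐ⁰}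
    (hv : IsCv res v) (hvw : ∀ i, v (w i) = 0) (P : Ideal S) (hPp : P.IsPrime)
    (hP : P.height = 1) (hPv : P ≤ v.supp) : ramP k K f P = 0 := by
  by_contra h
  rw [← ramV_valP f hP] at h
  have h1 := (hw _ (isDiv_valP hP) h).2 v.supp inferInstance
    (by rw [ker_toRes, cen_valP]; exact hPv) hvw
  exact supp_ne hv h1

/-- On a curve through the point which is not contained in `R_f` the dual derivations are
regular. -/
theorem pres_supp [IsFractionRing S K] [IsNoetherianRing S] [IsIntegrallyClosed S]
    (hS : NPt S res) {m n : ℕ} {w : Fin m → S} {f : Fin n → S} {D : Fin n → Derivation k K K}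
    (hD : Dual (fun i => (f i : K)) D) (hw : ProperR S res w f) {v : Valuation S ℤᵐ⁰}
    (hv : IsCv res v) (hvw : ∀ i, v (w i) = 0) (i : Fin n) : Pres (locP K v.supp) (D i) :=
  pres_of_ramP (locFG hS) hD v.supp (fun P hPp hP hPv => ramP_eq_zero hw hv hvw P hPp hP hPv) i

/-- **ROW R8.** -/
theorem den (k K : Type u) [Field k] [Field K] [Algebra k K] : Den k K := by
  intro _ S res hS n _ f _ D hD m _ w hw v hv hvw i G
  have := isFractionRing hS
  have := isNoetherianRing hS
  have := isIntegrallyClosed hS
  obtain ⟨a, s, hs, e⟩ := pres_supp hS hD hw hv hvw i (G : K) (map_mem_locP K v.supp G)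
  exact ⟨s, a, hs, by rw [mul_comm]; exact e⟩

end Pool.Agent.TGJ.P78
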