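import Mathlib

/-!
# A noetherian integrally closed local domain is the intersection of its localisations at the
primes of height one
-/

set_option autoImplicit false

namespace Pool.Agent.TGJ

variable {R K : Type*} [CommRing R] [IsDomain R] [IsNoetherianRing R] [IsIntegrallyClosed R]
  [Field K] [Algebra R K] [IsFractionRing R K]

omit [IsDomain R] [IsNoetherianRing R] [IsIntegrallyClosed R] in
/-- The ideal of the `r` with `s r c ∈ (b)` for some `s ∉ q`. -/
def satI (q : Ideal R) [q.IsPrime] (b c : R) : Ideal R where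
  carrier := {r | ∃ s, s ∉ q ∧ b ∣ s * r * c}
  zero_mem' := ⟨1, fun h => Ideal.IsPrime.ne_top' (Ideal.eq_top_of_isUnit_mem _ h isUnit_one), by
    simp⟩
  add_mem' := by
    rintro r r' ⟨s, hs, h⟩ ⟨s', hs', h'⟩
    refine ⟨s * s', fun h0 => (Ideal.IsPrime.mem_or_mem ‹_› h0).elim hs hs', ?_⟩
    have : s * s' * (r + r') * c = s' * (s * r * c) + s * (s' * r' * c) := by ring
    rw [this]
    exact dvd_add (Dvd.dvd.mul_left h _) (Dvd.dvd.mul_left h' _)
  smul_mem' := by
    rintro a r ⟨s, hs, h⟩
    refine ⟨s, hs, ?_⟩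
    have : s * (a • r) * c = a * (s * r * c) := by rw [smul_eq_mul]; ring
    rw [this]
    exact Dvd.dvd.mul_left h _

/-- An element of the field of fractions which is in `R_P` for all `P ≤ q` of height one is in
`R_q`. -/
theorem mem_loc_of_height_one (q : Ideal R) [hq : q.IsPrime] {x : K}
    (h : ∀ P : Ideal R, P.IsPrime → P.height = 1 → P ≤ q →
      ∃ a b : R, b ∉ P ∧ x = algebraMap R K a / algebraMap R K b) :
    ∃ a b : R, b ∉ q ∧ x = algebraMap R K a / algebraMap R K b := by
  obtain ⟨a, b, hb, rfl⟩ := IsFractionRing.div_surjective (A := R) x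
  have hb0 : b ≠ 0 := nonZeroDivisors.ne_zero hb
  have hbK : algebraMap R K b ≠ 0 := by
    rwa [Ne, FaithfulSMul.algebraMap_eq_zero_iff]
  by_contra hcon
  have h1q : (1 : R) ∉ q := fun h => hq.ne_top (Ideal.eq_top_of_isUnit_mem _ h isUnit_one)
  -- `1` is not in `satI q b a`
  have ha1 : (1 : R) ∉ satI q b a := by
    rintro ⟨s, hs, d, hd⟩
    apply hcon
    refine ⟨d, s, hs, ?_⟩
    have hs0 : algebraMap R K s ≠ 0 := by
      rw [Ne, FaithfulSMul.algebraMap_eq_zero_iff]
      rintro rfl
      exact hs q.zero_mem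
    rw [div_eq_div_iff hbK hs0, ← map_mul, ← map_mul]
    congr 1
    rw [mul_one] at hd
    rw [mul_comm a s, hd, mul_comm]
  -- a maximal one
  obtain ⟨P, ⟨c, hca, rfl, hc1⟩, hmax⟩ := set_has_maximal_iff_noetherian.2 ‹IsNoetherianRing R›
    {P : Ideal R | ∃ c, a ∣ c ∧ P = satI q b c ∧ (1 : R) ∉ P} ⟨_, a, dvd_rfl, rfl, ha1⟩
  have hprime : (satI q b c).IsPrime := by
    refine ⟨fun h => hc1 (h ▸ Submodule.mem_top), ?_⟩
    rintro x y ⟨s, hs, hxy⟩
    by_contra hcon2
    push Not at hcon2
    obtain ⟨hx, hy⟩ := hcon2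
    have h1 : satI q b c ≤ satI q b (x * c) := by
      rintro r ⟨s', hs', hr⟩
      refine ⟨s', hs', ?_⟩
      have : s' * r * (x * c) = x * (s' * r * c) := by ring
      rw [this]
      exact Dvd.dvd.mul_left hr _
    have h2 : y ∈ satI q b (x * c) := by
      refine ⟨s, hs, ?_⟩
      have : s * y * (x * c) = s * (x * y) * c := by ring
      rw [this]
      exact hxy
    have h3 : (1 : R) ∉ satI q b (x * c) := by
      rintro ⟨s', hs', hr⟩
      apply hx
      refine ⟨s', hs', ?_⟩
      have : s' * x * c = s' * 1 * (x * c) := by ring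
      rw [this]
      exact hr
    refine hmax _ ⟨x * c, Dvd.dvd.mul_left hca _, rfl, h3⟩ (lt_of_le_of_ne h1 fun h4 => ?_)
    exact hy (h4 ▸ h2)
  have hPq : satI q b c ≤ q := by
    rintro r ⟨s, hs, hr⟩
    by_contra hrq
    apply hc1
    refine ⟨s * r, fun h0 => (hq.mem_or_mem h0).elim hs hrq, ?_⟩
    rwa [mul_one]
  -- one `s` for all elements
  obtain ⟨s, hs, hsP⟩ : ∃ s, s ∉ q ∧ ∀ r ∈ satI q b c, b ∣ s * r * c := by
    obtain ⟨G, hG⟩ := (isNoetherianRing_iff_ideal_fg R).1 inferInstance (satI q b c)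
    have hG' : ∀ g ∈ G, g ∈ satI q b c := fun g hg => hG ▸ Ideal.subset_span hg
    classical
    have hex : ∀ G' : Finset R, (∀ g ∈ G', g ∈ satI q b c) →
        ∃ s, s ∉ q ∧ ∀ g ∈ G', b ∣ s * g * c := by
      intro G'
      induction G' using Finset.induction_on with
      | empty => exact fun _ => ⟨1, h1q, by simp⟩
      | insert g G' _ ih =>
        intro hG1
        obtain ⟨s, hs, h1⟩ := ih fun g hg => hG1 g (Finset.mem_insert_of_mem hg)
        obtain ⟨s', hs', h2⟩ := hG1 g (Finset.mem_insert_self _ _)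
        refine ⟨s * s', fun h0 => (hq.mem_or_mem h0).elim hs hs', fun g' hg' => ?_⟩
        rcases Finset.mem_insert.1 hg' with rfl | hg'
        · have : s * s' * g' * c = s * (s' * g' * c) := by ring
          rw [this]
          exact Dvd.dvd.mul_left h2 _
        · have : s * s' * g' * c = s' * (s * g' * c) := by ring
          rw [this]
          exact Dvd.dvd.mul_left (h1 g' hg') _
    obtain ⟨s, hs, h1⟩ := hex G hG'
    refine ⟨s, hs, fun r hr => ?_⟩
    rw [← hG] at hr
    induction hr using Submodule.span_induction with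
    | mem x hx => exact h1 x hx
    | zero => simp
    | add x y _ _ hx hy =>
      have : s * (x + y) * c = s * x * c + s * y * c := by ring
      rw [this]
      exact dvd_add hx hy
    | smul t x _ hx =>
      have : s * (t • x) * c = t * (s * x * c) := by rw [smul_eq_mul]; ring
      rw [this]
      exact Dvd.dvd.mul_left hx _
  -- `y = s c / b`
  set y : K := algebraMap R K (s * c) / algebraMap R K b with hy
  have hPy : ∀ r ∈ satI q b c, ∃ t : R, algebraMap R K t = algebraMap R K r * y := by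
    intro r hr
    obtain ⟨t, ht⟩ := hsP r hr
    refine ⟨t, ?_⟩
    rw [hy, mul_div_assoc', eq_div_iff hbK, ← map_mul, ← map_mul]
    congr 1
    rw [mul_comm t b, ← ht]
    ring
  have hb_mem : b ∈ satI q b c := ⟨1, h1q, by rw [one_mul]; exact Dvd.intro _ rfl⟩
  obtain ⟨π, hπ, t, ht, htP⟩ : ∃ π ∈ satI q b c, ∃ t : R,
      algebraMap R K t = algebraMap R K π * y ∧ t ∉ satI q b c := by
    by_contra hcon2
    push Not at hcon2
    have hint : IsIntegral R y := by
      refine isIntegral_of_smul_mem_submodule (M := K)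
        (Submodule.map (Algebra.linearMap R K) (satI q b c)) ?_ ?_ y ?_
      · intro h0
        have h1 : algebraMap R K b ∈ Submodule.map (Algebra.linearMap R K) (satI q b c) :=
          ⟨b, hb_mem, rfl⟩
        rw [h0, Submodule.mem_bot] at h1
        exact hbK h1
      · exact Submodule.FG.map _ ((isNoetherianRing_iff_ideal_fg R).1 inferInstance _)
      · rintro _ ⟨r, hr, rfl⟩
        obtain ⟨t, ht⟩ := hPy r hr
        refine ⟨t, hcon2 r hr t ht, ?_⟩
        rw [Algebra.linearMap_apply, ht, smul_eq_mul, mul_comm]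
        rfl
    obtain ⟨z, hz⟩ := IsIntegrallyClosed.isIntegral_iff.1 hint
    apply hc1
    refine ⟨s, hs, z, ?_⟩
    have h1 : algebraMap R K (b * z) = algebraMap R K (s * c) := by
      rw [map_mul, hz, hy, mul_div_cancel₀ _ hbK]
    rw [mul_one]
    exact (FaithfulSMul.algebraMap_injective R K h1).symm
  have hdiv : ∀ r ∈ satI q b c, π ∣ t * r := by
    intro r hr
    obtain ⟨z, hz⟩ := hPy r hr
    refine ⟨z, FaithfulSMul.algebraMap_injective R K ?_⟩
    rw [map_mul, map_mul, ht, hz]
    ring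
  have hmin : satI q b c ∈ (Ideal.span {π}).minimalPrimes := by
    refine ⟨⟨hprime, (Ideal.span_singleton_le_iff_mem _).2 hπ⟩, ?_⟩
    rintro Q ⟨hQ, hπQ⟩ hQP r hr
    obtain ⟨z, hz⟩ := hdiv r hr
    have h1 : t * r ∈ Q := by
      rw [hz]
      exact Q.mul_mem_right _ (hπQ (Ideal.mem_span_singleton_self π))
    exact (hQ.mem_or_mem h1).resolve_left fun h2 => htP (hQP h2)
  have hle : (satI q b c).height ≤ 1 := by
    have := (Ideal.height_le_one_of_isPrincipal_of_mem_minimalPrimes _ _ hmin)
    exact this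
  have hne : (satI q b c).height ≠ 0 := by
    intro h0
    rw [Ideal.height_eq_zero_iff_eq_bot] at h0
    rw [h0] at hb_mem
    exact hb0 hb_mem
  have hht : (satI q b c).height = 1 :=
    le_antisymm hle (Order.one_le_iff_ne_zero.2 hne)
  obtain ⟨a', b', hb', hab⟩ := h _ hprime hht hPq
  apply hb'
  refine ⟨1, h1q, ?_⟩
  obtain ⟨e, rfl⟩ := hca
  have hb'0 : algebraMap R K b' ≠ 0 := by
    rw [Ne, FaithfulSMul.algebraMap_eq_zero_iff]
    rintro rfl
    exact hb' (zero_mem _)
  rw [div_eq_div_iff hbK hb'0, ← map_mul, ← map_mul] at hab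
  have h2 := FaithfulSMul.algebraMap_injective R K hab
  refine ⟨a' * e, ?_⟩
  calc 1 * b' * (a * e) = (a * b') * e := by ring
    _ = (a' * b) * e := by rw [h2]
    _ = b * (a' * e) := by ring

end Pool.Agent.TGJ
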