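import Mathlib

/-!
# TANK G, general position: automorphisms of an algebraically closed field

`κ ⊆ k` are algebraically closed.  An element of `k` outside `κ` has an infinite orbit under
`Aut(k / κ)`; a finite stable set of vectors has its coordinates in `κ`.
-/

set_option autoImplicit false

namespace Pool.Agent.TGJ

open MvPolynomial

variable {κ k : Type*} [Field κ] [Field k] [Algebra κ k]

/-- The automorphism `t ↦ t + c`. -/
theorem exists_aut [IsAlgClosed k] {t : k} (ht : Transcendental κ t) (c : κ) :
    ∃ σ : k ≃ₐ[κ] k, σ t = t + algebraMap κ k c := by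
  classical
  obtain ⟨X, hX, hv⟩ := exists_isTranscendenceBasis_superset (R := κ) (s := {t})
    (by
      rw [AlgebraicIndepOn, algebraicIndependent_unique_type_iff]
      exact ht)
  have htX : t ∈ X := hX rfl
  let t' : X := ⟨t, htX⟩
  let e0 := hv.1.aevalEquiv
  have hcoe : ∀ p, ((e0 p : Algebra.adjoin κ (Set.range ((↑) : X → k))) : k) =
      aeval ((↑) : X → k) p := fun p => hv.1.algebraMap_aevalEquiv p
  let φ : MvPolynomial X κ ≃ₐ[κ] MvPolynomial X κ := AlgEquiv.ofAlgHom
    (aeval fun i => if i = t' then (MvPolynomial.X i + C c : MvPolynomial X κ) else MvPolynomial.X i)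
    (aeval fun i => if i = t' then (MvPolynomial.X i - C c : MvPolynomial X κ) else MvPolynomial.X i)
    (by
      ext i
      by_cases hi : i = t'
      · simp [hi]
      · simp [hi])
    (by
      ext i
      by_cases hi : i = t'
      · simp [hi]
      · simp [hi])
  let e : Algebra.adjoin κ (Set.range ((↑) : X → k)) ≃ₐ[κ]
      Algebra.adjoin κ (Set.range ((↑) : X → k)) := e0.symm.trans (φ.trans e0)
  have := IsAlgClosed.isAlgClosure_of_transcendence_basis ((↑) : X → k) hv
  let s := IsAlgClosure.equivOfEquiv k k e.toRingEquiv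
  have hs : ∀ a : Algebra.adjoin κ (Set.range ((↑) : X → k)), s (a : k) = (e a : k) := fun a =>
    IsAlgClosure.equivOfEquiv_algebraMap k k e.toRingEquiv a
  have hk : ∀ a : κ, s (algebraMap κ k a) = algebraMap κ k a := by
    intro a
    have h1 := hs (algebraMap κ _ a)
    rw [AlgEquiv.commutes] at h1
    exact h1
  refine ⟨AlgEquiv.ofRingEquiv (f := s) hk, ?_⟩
  have h1 := hs (e0 (MvPolynomial.X t'))
  rw [hcoe, aeval_X] at h1
  have h3 : e (e0 (MvPolynomial.X t')) = e0 (MvPolynomial.X t' + C c) := by
    change e0 (φ (e0.symm (e0 (MvPolynomial.X t')))) = _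
    rw [AlgEquiv.symm_apply_apply]
    congr 1
    change aeval _ (MvPolynomial.X t') = _
    rw [aeval_X, if_pos rfl]
  rw [h3, hcoe, map_add, aeval_X, algHom_C] at h1
  exact h1

/-- An element with a finite orbit is in `κ`. -/
theorem mem_of_finite_orbit [IsAlgClosed κ] [IsAlgClosed k] {t : k} {B : Set k} (hB : B.Finite)
    (htB : ∀ σ : k ≃ₐ[κ] k, σ t ∈ B) : ∃ c : κ, algebraMap κ k c = t := by
  by_contra hcon
  push Not at hcon
  have ht : Transcendental κ t := by
    intro halg
    obtain ⟨c, hc⟩ := IsAlgClosed.exists_root (minpoly κ t)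
      (minpoly.degree_pos halg.isIntegral).ne'
    have h1 := minpoly.irreducible halg.isIntegral
    have h2 := Polynomial.degree_eq_one_of_irreducible_of_root h1 hc
    obtain ⟨c', hc'⟩ := minpoly.mem_range_of_degree_eq_one κ t h2
    exact hcon c' hc'
  choose σ hσ using exists_aut (k := k) ht
  have hinf : Infinite κ := IsAlgClosed.instInfinite
  have h1 : Set.InjOn (fun c : κ => σ c t) Set.univ := by
    intro c _ c' _ h
    simp only [hσ] at h
    exact (algebraMap κ k).injective (add_left_cancel h)
  exact Set.infinite_univ (Set.Finite.of_finite_image (hB.subset (by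
    rintro _ ⟨c, -, rfl⟩
    exact htB _)) h1)

/-- A finite set of vectors which is stable under `Aut(k / κ)` has its coordinates in `κ`. -/
theorem mem_of_stable [IsAlgClosed κ] [IsAlgClosed k] {ι : Type*} {B : Set (ι → k)}
    (hB : B.Finite) (hst : ∀ σ : k ≃ₐ[κ] k, ∀ b ∈ B, (fun i => σ (b i)) ∈ B) {b : ι → k}
    (hb : b ∈ B) (i : ι) : ∃ c : κ, algebraMap κ k c = b i :=
  mem_of_finite_orbit (B := (fun b : ι → k => b i) '' B) (hB.image _)
    fun σ => ⟨_, hst σ b hb, rfl⟩

end Pool.Agent.TGJ
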